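import Pool.Agent.N754.GF.Stm

/-!
# GF/MVG: moving coefficients for an ideal with a common divisor (helper93)
Adapted from `Pool.Agent.N754.MT.Mv.smt`.
-/

set_option autoImplicit false
set_option linter.unusedSectionVars false
set_option linter.overlappingInstances false

open Finset Filter Module

namespace Pool.Agent.N93.GF

open Pool.Agent.Y742.DI Pool.Agent.N754.LT Pool.Agent.N754.MT Pool.Agent.N754.GF

theorem mvg : S_MVG := by
  intro k0 R0 _ _ _ _ D G k R _ _ _ _ μ hsz N κ _ B hBI hli hspan s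
  classical
  rcases isEmpty_or_nonempty κ with hκ | ⟨⟨c0⟩⟩
  · refine D.neg_mono _ _ (Filter.Eventually.of_forall fun ω => ?_) (D.neg_const 0)
    exact (hκ.false (s ω)).elim
  have := Fintype.ofFinite κ
  -- clearing denominators
  obtain ⟨δ, hδS, hδ0, z', hz'⟩ := μ.common (fun x : κ × Fin N => B x.1 x.2)
    (fun x => x ∈ G.I) (fun x hx y _ => G.I.mul_mem_right y hx) (fun x => hBI x.1 x.2)
  let z : κ → Fin N → R0 := fun c a => z' (c, a)
  have hz : ∀ c a, B c a * μ.j δ = μ.j (z c a) := fun c a => (hz' (c, a)).2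
  have hzI : ∀ c a, z c a ∈ G.I := fun c a => (hz' (c, a)).1
  have hB0 : ∀ c a, B c a ≠ 0 := fun c a => (hli c).ne_zero a
  have hz0 : ∀ c a, z c a ≠ 0 := fun c a => μ.ne_zero_of _ (hB0 c a) _ _ hδ0 (hz c a)
  -- coordinates
  have hco : ∀ c a, ∃ f : Fin N → k, ∑ l, f l • B c0 l = B c a := by
    intro c a
    rw [← Submodule.mem_span_range_iff_exists_fun, hspan c0 c]
    exact Submodule.subset_span ⟨a, rfl⟩
  choose m hm using hco
  obtain ⟨η, hηS, hη0, ν', hν'⟩ := μ.common (fun x : κ × Fin N × Fin N =>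
    algebraMap k R (m x.1 x.2.1 x.2.2)) (fun x => x ∈ SS D)
    (fun x hx y hy => Subring.mul_mem _ hx hy) (fun x => by
      obtain ⟨x', hx', d, hd, hd0, h⟩ := μ.rep_k (m x.1 x.2.1 x.2.2)
      exact ⟨x', hx', d, hd, hd0, h⟩)
  let ν : κ → Fin N → Fin N → R0 := fun c a l => ν' (c, a, l)
  have hνS : ∀ c a l, ν c a l ∈ SS D := fun c a l => (hν' (c, a, l)).1
  have hν : ∀ c a l, algebraMap k R (m c a l) * μ.j η = μ.j (ν c a l) :=
    fun c a l => (hν' (c, a, l)).2
  let y : Fin N → R0 := z c0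
  have hηz : ∀ c a, η * z c a = ∑ l, ν c a l * y l := by
    intro c a
    apply μ.inj
    rw [map_mul, ← hz, ← hm c a, map_sum, Finset.sum_mul, Finset.mul_sum]
    refine Finset.sum_congr rfl fun l _ => ?_
    rw [map_mul, ← hν, ← hz c0 l, Algebra.smul_def]
    ring
  -- the case of an empty basis
  rcases Nat.eq_zero_or_pos N with hN0 | hNpos
  · subst hN0
    refine D.neg_mono _ _ (Filter.Eventually.of_forall fun ω => ?_) (D.neg_const 0)
    simp
  have hNR : (0 : ℝ) < N := by exact_mod_cast hNpos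
  -- sizes
  choose Cy hCy0 hCy using fun l => hsz (y l)
  let C : ℝ := ∑ l, Cy l
  have hC0 : 0 ≤ C := Finset.sum_nonneg fun l _ => hCy0 l
  let Y : D.Ω → ℝ := fun ω => ∑ l, max (D.lg (y l) ω) 0
  have hY : D.Neg (fun ω => Y ω - C * D.one ω) := by
    refine D.neg_mono _ _ (Filter.Eventually.of_forall fun ω => ?_)
      (D.neg_sum Finset.univ _ fun l _ => hCy l)
    simp only [Y, C]
    rw [Finset.sum_sub_distrib, Finset.sum_mul]
  have hY0 : ∀ ω, 0 ≤ Y ω := fun ω => Finset.sum_nonneg fun l _ => le_max_right _ _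
  -- the reduction to the elements `z`
  have hlgB : ∀ᶠ ω in D.ev, ∀ c a, Real.log (μ.AA (B c a) ω) = D.lg (z c a) ω - D.lg δ ω :=
    (Filter.eventually_all).2 fun c => (Filter.eventually_all).2 fun a =>
      μ.lg_eq _ (hB0 c a) _ _ hδ0 (hz c a)
  suffices hmain : D.Neg (fun ω => N * G.g ω - ∑ a, D.lg (z (s ω) a) ω) by
    refine D.neg_mono _ _ ?_ (D.neg_add _ _ hmain (D.neg_smul _ (N : ℝ) (Nat.cast_nonneg _)
      (sm_abs D δ hδ0 hδS)))
    filter_upwards [hlgB] with ω h
    have h1 : ∑ a, Real.log (μ.AA (B (s ω) a) ω) = ∑ a, D.lg (z (s ω) a) ω - N * D.lg δ ω := by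
      rw [Finset.sum_congr rfl fun a _ => h (s ω) a, Finset.sum_sub_distrib, Finset.sum_const,
        Finset.card_univ, Fintype.card_fin, nsmul_eq_mul]
    rw [h1]
    have h2 := le_abs_self (D.lg δ ω)
    nlinarith
  -- the spaces of coefficients
  refine D.arch _ fun ε hε => ?_
  let q : ℕ := Fintype.card (κ × Fin N × Fin N)
  let eq : κ × Fin N × Fin N ≃ Fin q := Fintype.equivFin _
  let θ : Fin q → R0 := fun i => ν' (eq.symm i)
  have hθS : ∀ i, θ i ∈ SS D := fun i => (hν' _).1
  have hθν : ∀ c a l, θ (eq (c, a, l)) = ν c a l := fun c a l => by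
    simp only [θ, Equiv.symm_apply_apply]
    rfl
  obtain ⟨h, hh⟩ := exists_slow (k := k0) θ (ε / (N * (C + 1))) (by positivity)
  set d0 : ℕ := finrank k0 (Vh k0 θ h) with hd0
  set d1 : ℕ := finrank k0 (Vh k0 θ (h + 1)) with hd1
  have hd0pos : 1 ≤ d0 := finrank_Vh_pos θ h
  have hVS : ∀ h' : ℕ, ∀ x ∈ Vh k0 θ h', x ∈ SS D := by
    intro h' x hx
    unfold Vh at hx
    induction hx using Submodule.span_induction with
    | mem x hx =>
      obtain ⟨b, rfl⟩ := hx
      exact Subring.prod_mem _ fun i _ => Subring.pow_mem _ (hθS i) _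
    | zero => exact Subring.zero_mem _
    | add x y _ _ h1 h2 => exact Subring.add_mem _ h1 h2
    | smul c x _ h1 =>
      rw [Algebra.smul_def]
      exact Subring.mul_mem _ (const_mem_SS D c) h1
  let βb := Module.finBasis k0 (Vh k0 θ h)
  let β : Fin d0 → R0 := fun i => (βb i : R0)
  have hβli : LinearIndependent k0 β := βb.linearIndependent.map' (Vh k0 θ h).subtype
    (LinearMap.ker_eq_bot.2 Subtype.val_injective)
  have hβS : ∀ i, β i ∈ SS D := fun i => hVS h _ (βb i).2
  have hβ0 : ∀ i, β i ≠ 0 := fun i => hβli.ne_zero i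
  -- the two families
  let w : Sx q (h + 1) × Fin N → R0 := fun t => mth θ t.1.1 * y t.2
  let W : Submodule k0 R0 := Submodule.span k0 (Set.range w)
  let u : κ → Fin d0 × Fin N → R0 := fun c t => β t.1 * (η * z c t.2)
  have hVW : ∀ x ∈ Vh k0 θ (h + 1), ∀ l, x * y l ∈ W := by
    intro x hx l
    unfold Vh at hx
    induction hx using Submodule.span_induction with
    | mem x hx =>
      obtain ⟨b, rfl⟩ := hx
      exact Submodule.subset_span ⟨(b, l), rfl⟩
    | zero =>
      rw [zero_mul]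
      exact Submodule.zero_mem _
    | add x y _ _ h1 h2 =>
      rw [add_mul]
      exact Submodule.add_mem _ h1 h2
    | smul c x _ h1 =>
      rw [smul_mul_assoc]
      exact Submodule.smul_mem _ _ h1
  have huW : ∀ c t, u c t ∈ W := by
    intro c t
    simp only [u]
    rw [hηz, Finset.mul_sum]
    refine Submodule.sum_mem _ fun l _ => ?_
    rw [← mul_assoc]
    refine hVW _ ?_ l
    rw [← hθν]
    exact mul_mem_Vh θ h _ (βb t.1).2 _
  -- small elements are in the field
  have hsmall : ∀ x ∈ SS D, ∃ c : k, algebraMap k R c = μ.j x := μ.small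
  have huli : ∀ c, LinearIndependent k0 (u c) := by
    intro c
    rw [Fintype.linearIndependent_iff]
    intro g hg
    -- collecting the coefficients
    have h1 : ∑ a, (∑ i, g (i, a) • β i) * (η * z c a) = 0 := by
      rw [← hg, Fintype.sum_prod_type, Finset.sum_comm]
      refine Finset.sum_congr rfl fun a _ => ?_
      rw [Finset.sum_mul]
      refine Finset.sum_congr rfl fun i _ => ?_
      rw [smul_mul_assoc]
    have hsum : ∀ a, (∑ i, g (i, a) • β i) ∈ SS D := by
      intro a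
      refine Subring.sum_mem _ fun i _ => ?_
      rw [Algebra.smul_def]
      exact Subring.mul_mem _ (const_mem_SS D _) (hβS i)
    choose e he using fun a => hsmall _ (hsum a)
    have h2 : ∑ a, e a • B c a = 0 := by
      have h3 : μ.j (δ * η) * ∑ a, e a • B c a = 0 := by
        have h4 := congrArg μ.j h1
        rw [map_sum, map_zero] at h4
        rw [← h4, Finset.mul_sum]
        refine Finset.sum_congr rfl fun a _ => ?_
        rw [map_mul, map_mul, map_mul, ← he, ← hz, Algebra.smul_def]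
        ring
      refine (mul_eq_zero.1 h3).resolve_left fun h5 => ?_
      have h6 : δ * η = 0 := μ.inj (by rw [h5, map_zero])
      exact mul_ne_zero hδ0 hη0 h6
    have h3 := Fintype.linearIndependent_iff.1 (hli c) e h2
    rintro ⟨i, a⟩
    have h4 : ∑ i, g (i, a) • β i = 0 := by
      apply μ.inj
      rw [← he, h3 a, map_zero, map_zero]
    exact Fintype.linearIndependent_iff.1 hβli (fun i => g (i, a)) h4 i
  have hext := fun c => extend_family (u c) (huli c) w (huW c)
  choose T E hEli hEspan hEcard hEsum using hext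
  -- dimension
  have hdimW : finrank k0 W ≤ N * d1 := by
    let L : (Fin N → Vh k0 θ (h + 1)) →ₗ[k0] R0 :=
      { toFun := fun v => ∑ l, (v l : R0) * y l
        map_add' := fun v v' => by
          rw [← Finset.sum_add_distrib]
          exact Finset.sum_congr rfl fun l _ => by
            rw [Pi.add_apply, Submodule.coe_add, add_mul]
        map_smul' := fun c v => by
          rw [RingHom.id_apply, Finset.smul_sum]
          exact Finset.sum_congr rfl fun l _ => by
            rw [Pi.smul_apply, Submodule.coe_smul, smul_mul_assoc] }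
    have h1 : W ≤ LinearMap.range L := by
      rw [Submodule.span_le]
      rintro _ ⟨⟨b, l⟩, rfl⟩
      refine ⟨Pi.single l ⟨mth θ b.1, Submodule.subset_span ⟨b, rfl⟩⟩, ?_⟩
      show ∑ l', (((Pi.single l (⟨mth θ b.1, Submodule.subset_span ⟨b, rfl⟩⟩ : Vh k0 θ (h + 1)) :
        Fin N → Vh k0 θ (h + 1)) l' : R0)) * y l' = mth θ b.1 * y l
      rw [Finset.sum_eq_single l]
      · rw [Pi.single_eq_same]
      · intro l' _ hl'
        rw [Pi.single_eq_of_ne hl', Submodule.coe_zero, zero_mul]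
      · intro h
        exact absurd (Finset.mem_univ _) h
    have h2 := Submodule.finrank_mono h1
    have h3 := LinearMap.finrank_range_le L
    have h4 : finrank k0 (Fin N → Vh k0 θ (h + 1)) = N * d1 := by
      rw [Module.finrank_pi_fintype, Finset.sum_const, Finset.card_univ, Fintype.card_fin,
        smul_eq_mul]
    omega
  have hTcard : ∀ c, ((T c).card : ℝ) ≤ N * (d1 - d0) := by
    intro c
    have h1 := hEcard c
    rw [Fintype.card_prod, Fintype.card_fin, Fintype.card_fin] at h1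
    have h2 : d0 * N + (T c).card ≤ N * d1 := h1.trans_le hdimW
    have h3 : ((d0 : ℝ) * N + (T c).card) ≤ N * d1 := by exact_mod_cast h2
    linarith
  -- the comparison theorem
  have hwI : ∀ t, w t ∈ G.I := fun t => G.I.mul_mem_left _ (hzI c0 t.2)
  have hWI : ∀ x ∈ W, x ∈ G.I := by
    intro x hx
    induction hx using Submodule.span_induction with
    | mem x hx =>
      obtain ⟨t, rfl⟩ := hx
      exact hwI t
    | zero => exact G.I.zero_mem
    | add x y _ _ h1 h2 => exact G.I.add_mem h1 h2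
    | smul c x _ h1 =>
      rw [Algebra.smul_def]
      exact G.I.mul_mem_left _ h1
  have hEI : ∀ c i, E c i ∈ G.I := by
    intro c i
    apply hWI
    change E c i ∈ Submodule.span k0 (Set.range w)
    rw [← hEspan c]
    exact Submodule.subset_span ⟨i, rfl⟩
  have hsmt := G.smt _ κ E hEI hEli (fun c c' => (hEspan c).trans (hEspan c').symm) s
  have hw0 : ∀ c, ∀ t ∈ T c, w t ≠ 0 := by
    intro c t ht hw
    have h1 := hEsum c (fun x => if x = 0 then 1 else 0)
    have h2 : ∑ i, (if E c i = 0 then (1 : ℝ) else 0) = 0 :=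
      Finset.sum_eq_zero fun i _ => if_neg ((hEli c).ne_zero i)
    have h3 : (1 : ℝ) ≤ ∑ t ∈ T c, (if w t = 0 then (1 : ℝ) else 0) := by
      have h4 := Finset.single_le_sum (f := fun t => if w t = 0 then (1 : ℝ) else 0)
        (fun t _ => by split_ifs <;> norm_num) ht
      simp only [hw, if_true] at h4
      exact h4
    have h4 : (0 : ℝ) ≤ ∑ i, (if u c i = 0 then (1 : ℝ) else 0) :=
      Finset.sum_nonneg fun i _ => by split_ifs <;> norm_num
    rw [h2] at h1
    linarith
  have hlgw : ∀ᶠ ω in D.ev, ∀ c, ∀ t ∈ T c, D.lg (w t) ω ≤ |D.lg (mth θ t.1.1) ω| + Y ω := by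
    refine (Filter.eventually_all).2 fun c => (Filter.eventually_all_finset _).2 fun t ht => ?_
    have h0 := hw0 c t ht
    have h1 : mth θ t.1.1 ≠ 0 := fun h => h0 (by simp only [w, h, zero_mul])
    have h2 : y t.2 ≠ 0 := fun h => h0 (by simp only [w, h, mul_zero])
    filter_upwards [D.lg_mul _ _ h1 h2] with ω g1
    have g2 : D.lg (w t) ω = D.lg (mth θ t.1.1) ω + D.lg (y t.2) ω := g1
    rw [g2]
    have g3 := le_abs_self (D.lg (mth θ t.1.1) ω)
    have g4 : max (D.lg (y t.2) ω) 0 ≤ Y ω :=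
      Finset.single_le_sum (f := fun l => max (D.lg (y l) ω) 0) (fun l _ => le_max_right _ _)
        (Finset.mem_univ t.2)
    have g5 := le_max_left (D.lg (y t.2) ω) 0
    linarith
  have hlgu : ∀ᶠ ω in D.ev, ∀ c t, D.lg (u c t) ω =
      D.lg (β t.1) ω + (D.lg η ω + D.lg (z c t.2) ω) := by
    refine (Filter.eventually_all).2 fun c => (Filter.eventually_all).2 fun t => ?_
    filter_upwards [D.lg_mul (β t.1) (η * z c t.2) (hβ0 _) (mul_ne_zero hη0 (hz0 c _)),
      D.lg_mul η (z c t.2) hη0 (hz0 c _)] with ω g1 g2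
    show D.lg (β t.1 * (η * z c t.2)) ω = _
    rw [g1, g2]
  let P : D.Ω → ℝ := fun ω => ∑ t : Sx q (h + 1) × Fin N, |D.lg (mth θ t.1.1) ω|
  have hP : D.Neg P := by
    refine D.neg_sum _ _ fun t _ => ?_
    by_cases h0 : mth θ t.1.1 = 0
    · refine D.neg_mono _ _ ?_ (D.neg_const 0)
      filter_upwards [D.A_zero] with ω g
      unfold Dc.lg
      rw [h0, g, Real.log_zero, abs_zero]
    · exact sm_abs D _ h0 (Subring.prod_mem _ fun i _ => Subring.pow_mem _ (hθS i) _)
  let Q : D.Ω → ℝ := fun ω => ∑ t : Fin d0 × Fin N, (|D.lg (β t.1) ω| + |D.lg η ω|)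
  have hQ : D.Neg Q := D.neg_sum _ _ fun t _ =>
    D.neg_add _ _ (sm_abs D _ (hβ0 _) (hβS _)) (sm_abs D _ hη0 hηS)
  have hd0R : (0 : ℝ) < d0 := by exact_mod_cast hd0pos
  have hd10 : (0 : ℝ) ≤ N * ((d1 : ℝ) - d0) :=
    (Nat.cast_nonneg _).trans (hTcard c0)
  -- assembling
  have h1 := D.neg_add _ _ (D.neg_add _ _ (D.neg_add _ _ hsmt hQ) hP)
    (D.neg_smul _ (N * ((d1 : ℝ) - d0)) hd10 hY)
  have h2 := D.neg_smul _ (1 / (d0 : ℝ)) (by positivity) h1
  refine D.neg_mono _ _ ?_ h2
  filter_upwards [hlgw, hlgu, D.one_nonneg, G.nonneg] with ω g1 g2 g3 g4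
  set c := s ω with hc
  have e1 : ∑ i, Real.log (D.A (E c i) ω) = ∑ t, D.lg (u c t) ω + ∑ t ∈ T c, D.lg (w t) ω :=
    hEsum c (fun x => D.lg x ω)
  have e2 : ∑ t, D.lg (u c t) ω = ∑ t : Fin d0 × Fin N, (D.lg (β t.1) ω + D.lg η ω) +
      d0 * ∑ a, D.lg (z c a) ω := by
    rw [Finset.sum_congr rfl fun t _ => g2 c t]
    have e3 : ∑ t : Fin d0 × Fin N, (D.lg (β t.1) ω + (D.lg η ω + D.lg (z c t.2) ω)) =
        ∑ t : Fin d0 × Fin N, (D.lg (β t.1) ω + D.lg η ω) +
          ∑ t : Fin d0 × Fin N, D.lg (z c t.2) ω := by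
      rw [← Finset.sum_add_distrib]
      exact Finset.sum_congr rfl fun t _ => by ring
    rw [e3]
    congr 1
    rw [Fintype.sum_prod_type]
    simp only
    rw [Finset.sum_const, Finset.card_univ, Fintype.card_fin, nsmul_eq_mul]
  have e4 : ∑ t : Fin d0 × Fin N, (D.lg (β t.1) ω + D.lg η ω) ≤ Q ω :=
    Finset.sum_le_sum fun t _ => add_le_add (le_abs_self _) (le_abs_self _)
  have e5 : ∑ t ∈ T c, D.lg (w t) ω ≤ P ω + N * ((d1 : ℝ) - d0) * Y ω := by
    refine (Finset.sum_le_sum fun t ht => g1 c t ht).trans ?_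
    rw [Finset.sum_add_distrib, Finset.sum_const, nsmul_eq_mul]
    have e6 : ∑ t ∈ T c, |D.lg (mth θ t.1.1) ω| ≤ P ω :=
      Finset.sum_le_sum_of_subset_of_nonneg (Finset.subset_univ _) fun _ _ _ => abs_nonneg _
    have e7 : ((T c).card : ℝ) * Y ω ≤ N * ((d1 : ℝ) - d0) * Y ω :=
      mul_le_mul_of_nonneg_right (hTcard c) (hY0 ω)
    linarith
  have e6 : (N * ((d1 : ℝ) - d0)) * (C * D.one ω) ≤ d0 * (ε * D.one ω) := by
    have e7 : (d1 : ℝ) - d0 ≤ ε / (N * (C + 1)) * d0 := by
      have := hh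
      linarith
    have e8 : (N * ((d1 : ℝ) - d0)) * C ≤ d0 * ε := by
      calc (N * ((d1 : ℝ) - d0)) * C ≤ (N * (ε / (N * (C + 1)) * d0)) * C :=
            mul_le_mul_of_nonneg_right (mul_le_mul_of_nonneg_left e7 hNR.le) hC0
        _ = d0 * ε * (C / (C + 1)) := by
            field_simp
        _ ≤ d0 * ε * 1 := by
            refine mul_le_mul_of_nonneg_left ?_ (by positivity)
            rw [div_le_one (by linarith)]
            linarith
        _ = d0 * ε := mul_one _
    calc (N * ((d1 : ℝ) - d0)) * (C * D.one ω) = (N * ((d1 : ℝ) - d0)) * C * D.one ω := by ring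
      _ ≤ d0 * ε * D.one ω := mul_le_mul_of_nonneg_right e8 g3
      _ = _ := by ring
  have e7 : (d0 : ℝ) * N * G.g ω ≤ (finrank k0 W : ℝ) * G.g ω := by
    refine mul_le_mul_of_nonneg_right ?_ g4
    have h1 := hEcard c
    rw [Fintype.card_prod, Fintype.card_fin, Fintype.card_fin] at h1
    have h2 : d0 * N ≤ finrank k0 W := by
      have h3 : d0 * N + (T c).card = finrank k0 W := h1
      omega
    exact_mod_cast h2
  rw [one_div, ← div_eq_inv_mul, le_div_iff₀ hd0R]
  rw [e1, e2]
  nlinarith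


end Pool.Agent.N93.GF
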